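import Mathlib
import Pool.Agent.W543.GE.Stm

/-!
# GE: the corrected form of PART LIN

In `LIN_stmt` the hypothesis on the constant terms is `IsUnit` in the pointwise monoid of
functions; here it is invertibility of the matrix of the constant terms.
-/

set_option autoImplicit false

universe u

namespace Pool.Agent.W103.GE

open Pool.Agent.W543.GE

/-- PART LIN, corrected: the matrix of the constant terms is invertible. -/
def LIN2_stmt : Prop := ∀ (C : Type u) [Ring C] (n g : ℕ)
  (J : Matrix (Fin n) (Fin n) (MonoidAlgebra C (FreeMonoid (Fin g)))),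
  IsUnit (Matrix.of fun k i => (J k i).coeff 1) →
  ∃ (S : Type) (_ : Fintype S) (_ : DecidableEq S) (B : Fin g → Matrix S S C),
    ((∃ k : ℕ, ∀ w : List (Fin g), k ≤ w.length → (w.map B).prod = 0) → IsUnit J) ∧
    ∀ (V : Type u) [AddCommGroup V]
      (E : MonoidAlgebra C (FreeMonoid (Fin g)) →+* AddMonoid.End V),
      (∀ v : Fin n → V, (∀ k, ∑ i, E (J k i) (v i) = 0) → v = 0) →
      ∀ s : S → V,
        (∀ a, s a = ∑ j, ∑ b, E (MonoidAlgebra.single (FreeMonoid.of j) (B j a b)) (s b)) → s = 0

end Pool.Agent.W103.GE
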