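import Mathlib
import Pool.Agent.W543.GE.Defs
import Pool.Agent.W543.GE.Stm

/-!
# GE-U1
-/

set_option autoImplicit false

open scoped TensorProduct Kronecker

universe u

namespace Pool.Agent.W103.GE

open Pool.Agent.W543.GE

section

variable {K : Type u} [Field K] {g : ℕ}

/-- the isomorphism with the algebra of the free monoid -/
noncomputable def qq : A K g ≃ₐ[K] MonoidAlgebra K (FreeMonoid (Fin g)) :=
  FreeAlgebra.equivMonoidAlgebraFreeMonoid

theorem qq_x (j : Fin g) : (qq (x j) : MonoidAlgebra K (FreeMonoid (Fin g))) =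
    MonoidAlgebra.single (FreeMonoid.of j) 1 := by
  unfold qq FreeAlgebra.equivMonoidAlgebraFreeMonoid
  simp

theorem qq_symm_single (j : Fin g) (r : K) :
    (qq.symm (MonoidAlgebra.single (FreeMonoid.of j) r) : A K g) = r • x j := by
  rw [AlgEquiv.symm_apply_eq, map_smul, qq_x]
  simp

theorem coeff_one_eq (m : MonoidAlgebra K (FreeMonoid (Fin g))) :
    m.coeff 1 = MonoidAlgebra.lift K K (FreeMonoid (Fin g)) (FreeMonoid.lift (fun _ => (0 : K))) m := by
  induction m using MonoidAlgebra.induction_linear with
  | zero => simp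
  | add f h hf hh => rw [MonoidAlgebra.coeff_add, Finsupp.add_apply, hf, hh, map_add]
  | single w r =>
    rw [MonoidAlgebra.coeff_single, MonoidAlgebra.lift_single]
    induction w using FreeMonoid.casesOn with
    | one => simp
    | of_mul a w =>
      rw [map_mul, FreeMonoid.lift_eval_of, zero_mul, smul_zero, Finsupp.single_eq_of_ne]
      intro h
      have h2 := congrArg FreeMonoid.length h
      rw [FreeMonoid.length_mul, FreeMonoid.length_one, FreeMonoid.length_of] at h2
      omega

theorem coeff_one_qq (a : A K g) : (qq a).coeff 1 = eps a := by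
  rw [coeff_one_eq]
  have h : (MonoidAlgebra.lift K K (FreeMonoid (Fin g)) (FreeMonoid.lift (fun _ => (0 : K)))).comp
      (qq (K := K) (g := g)).toAlgHom = (eps : A K g →ₐ[K] K) := by
    apply FreeAlgebra.hom_ext
    funext j
    show (MonoidAlgebra.lift K K (FreeMonoid (Fin g)) (FreeMonoid.lift (fun _ => (0 : K))))
      (qq (x j)) = eps (x j)
    rw [qq_x, MonoidAlgebra.lift_single]
    simp [FreeAlgebra.algebraMapInv]
  exact congrArg (fun f : A K g →ₐ[K] K => f a) h

theorem ev_zero (a : A K g) : ev (fun _ : Fin g => (0 : Matrix (Fin 1) (Fin 1) K)) a =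
    algebraMap K (Matrix (Fin 1) (Fin 1) K) (eps a) := by
  have h : (ev (fun _ : Fin g => (0 : Matrix (Fin 1) (Fin 1) K)) :
      A K g →ₐ[K] Matrix (Fin 1) (Fin 1) K) =
      (Algebra.ofId K (Matrix (Fin 1) (Fin 1) K)).comp (eps : A K g →ₐ[K] K) := by
    apply FreeAlgebra.hom_ext
    funext j
    show ev (fun _ : Fin g => (0 : Matrix (Fin 1) (Fin 1) K)) (x j) =
      algebraMap K (Matrix (Fin 1) (Fin 1) K) (eps (x j))
    rw [FreeAlgebra.lift_ι_apply]
    simp [FreeAlgebra.algebraMapInv]
  exact congrArg (fun f : A K g →ₐ[K] Matrix (Fin 1) (Fin 1) K => f a) h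

/-- the action on vectors -/
noncomputable def EE {N : ℕ} (X : Fin g → Matrix (Fin N) (Fin N) K) :
    MonoidAlgebra K (FreeMonoid (Fin g)) →+* AddMonoid.End (Fin N → K) where
  toFun m := (Matrix.mulVecLin (ev X (qq.symm m))).toAddMonoidHom
  map_one' := by
    refine AddMonoidHom.ext fun v => ?_
    show (ev X (qq.symm 1)).mulVec v = v
    rw [map_one, map_one, Matrix.one_mulVec]
  map_mul' a b := by
    refine AddMonoidHom.ext fun v => ?_
    show (ev X (qq.symm (a * b))).mulVec v = (ev X (qq.symm a)).mulVec ((ev X (qq.symm b)).mulVec v)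
    rw [map_mul, map_mul, Matrix.mulVec_mulVec]
  map_zero' := by
    refine AddMonoidHom.ext fun v => ?_
    show (ev X (qq.symm 0)).mulVec v = 0
    rw [map_zero, map_zero, Matrix.zero_mulVec]
  map_add' a b := by
    refine AddMonoidHom.ext fun v => ?_
    show (ev X (qq.symm (a + b))).mulVec v = (ev X (qq.symm a)).mulVec v + (ev X (qq.symm b)).mulVec v
    rw [map_add, map_add, Matrix.add_mulVec]

theorem EE_apply {N : ℕ} (X : Fin g → Matrix (Fin N) (Fin N) K)
    (m : MonoidAlgebra K (FreeMonoid (Fin g))) (v : Fin N → K) :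
    EE X m v = (ev X (qq.symm m)).mulVec v := rfl

end

theorem t_U1 (h1 : NIL_stmt.{u}) (h2 : LIN_stmt.{u}) : U1_stmt.{u} := by
  intro K _ n g M hM
  classical
  -- the constant terms
  have hc : IsUnit (Matrix.of fun k i => ((M.map qq) k i).coeff 1) := by
    rw [← Matrix.mulVec_injective_iff_isUnit]
    rw [← Matrix.coe_mulVecLin, injective_iff_map_eq_zero]
    intro v hv
    have h3 := hM 1 (fun _ => 0) (fun i _ => v i) (fun k => by
      have h4 := congrFun hv k
      rw [Matrix.coe_mulVecLin] at h4
      funext t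
      rw [Finset.sum_apply]
      rw [Pi.zero_apply] at h4 ⊢
      rw [← h4]
      show _ = ∑ i, ((M.map qq) k i).coeff 1 * v i
      refine Finset.sum_congr rfl fun i _ => ?_
      rw [ev_zero, Matrix.map_apply, coeff_one_qq, Algebra.algebraMap_eq_smul_one,
        Matrix.smul_mulVec, Matrix.one_mulVec]
      rfl)
    funext i
    exact congrFun (congrFun h3 i) 0
  obtain ⟨S, _, _, B, hB1, hB2⟩ := h2 K n g (M.map qq) hc
  have hnil := h1 K (S → K) g (fun j => (B j).mulVecLin) (by
    intro N X s hs
    have h3 := hB2 (Fin N → K) (EE X) (by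
      intro v hv
      apply hM N X v
      intro k
      have h4 := hv k
      rw [← h4]
      refine Finset.sum_congr rfl fun i _ => ?_
      rw [EE_apply, Matrix.map_apply, AlgEquiv.symm_apply_apply]) (fun c a => s a c) (by
      intro c
      funext a
      have h5 := congrFun (hs a) c
      rw [h5, Finset.sum_apply, Finset.sum_apply]
      refine Finset.sum_congr rfl fun j _ => ?_
      rw [Finset.sum_apply, Finset.sum_apply]
      have h6 : ∀ c' : S, (EE X (MonoidAlgebra.single (FreeMonoid.of j) (B j c c'))
          (fun a => s a c')) a = ∑ b, B j c c' * (X j a b * s b c') := by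
        intro c'
        rw [EE_apply, qq_symm_single, map_smul, FreeAlgebra.lift_ι_apply, Matrix.smul_mulVec]
        show B j c c' * (X j).mulVec (fun a => s a c') a = _
        rw [← Finset.mul_sum]
        rfl
      rw [Finset.sum_congr rfl fun c' _ => h6 c', Finset.sum_comm]
      refine Finset.sum_congr rfl fun b _ => ?_
      show X j a b * ((B j).mulVec (s b)) c = _
      show X j a b * ∑ c', B j c c' * s b c' = _
      rw [Finset.mul_sum]
      refine Finset.sum_congr rfl fun c' _ => ?_
      ring)
    funext a c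
    exact congrFun (congrFun h3 c) a)
  obtain ⟨k, hk⟩ := hnil
  have hJ : IsUnit (M.map qq) := by
    apply hB1
    refine ⟨k, fun w hw => ?_⟩
    have h3 := hk w hw
    have h4 : ∀ w : List (Fin g), (w.map (fun j => (B j).mulVecLin)).prod =
        ((w.map B).prod).mulVecLin := by
      intro w
      induction w with
      | nil =>
        rw [List.map_nil, List.prod_nil, List.map_nil, List.prod_nil, Matrix.mulVecLin_one]
        rfl
      | cons j w ih =>
        rw [List.map_cons, List.prod_cons, List.map_cons, List.prod_cons, ih,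
          Matrix.mulVecLin_mul]
        rfl
    rw [h4] at h3
    have h5 : Matrix.toLin' ((w.map B).prod) = 0 := h3
    exact (LinearEquiv.map_eq_zero_iff _).1 h5
  have h3 := hJ.map (RingHom.mapMatrix (m := Fin n)
    ((qq (K := K) (g := g)).symm : _ →+* A K g))
  have h4 : (RingHom.mapMatrix (m := Fin n) ((qq (K := K) (g := g)).symm : _ →+* A K g))
      (M.map qq) = M := by
    ext i j
    show qq.symm (qq (M i j)) = M i j
    exact AlgEquiv.symm_apply_apply _ _
  rwa [h4] at h3

end Pool.Agent.W103.GE
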